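import Mathlib
import Pool.Agent.W715.VC.TrPow

/-!
# Matrices with small traces of powers (for W1 of project QW of helper630)

A unitary matrix `P` of size `N` with determinant `1` for which `tr P ^ j` is small for `0 < j < N`
has `P ^ N` near `(-1) ^ (N + 1)`: Newton's identities and the theorem of Cayley and Hamilton.
-/

set_option autoImplicit false

open Matrix Polynomial Finset
open scoped Matrix.Norms.Frobenius

namespace Pool.Agent.Run7.h591.QW

/-- the eigenvalues as a family -/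
theorem exists_fam {m : ℕ} (A : Matrix (Fin m) (Fin m) ℂ) : ∃ f : Fin m → ℂ,
    (Finset.univ.val.map f) = A.charpoly.roots := by
  obtain ⟨l, hl⟩ := Quot.exists_rep A.charpoly.roots
  have hl' : (l : Multiset ℂ) = A.charpoly.roots := hl
  have hc : l.length = m := by
    have h1 : Multiset.card A.charpoly.roots = A.charpoly.natDegree :=
      splits_iff_card_roots.1 (IsAlgClosed.splits _)
    rw [← hl', Multiset.coe_card, charpoly_natDegree_eq_dim, Fintype.card_fin] at h1
    exact h1
  refine ⟨fun i => l.get (Fin.cast hc.symm i), ?_⟩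
  rw [← hl', Fin.univ_val_map]
  congr 1
  apply List.ext_getElem
  · simp [hc]
  · intro i h1 h2
    simp

theorem coeff_charpoly {m : ℕ} {A : Matrix (Fin m) (Fin m) ℂ} {f : Fin m → ℂ}
    (hf : (Finset.univ.val.map f) = A.charpoly.roots) {k : ℕ}
    (hk : k ≤ m) : A.charpoly.coeff (m - k) =
      (-1) ^ k * MvPolynomial.aeval f (MvPolynomial.esymm (Fin m) ℂ k) := by
  have h0 : A.charpoly = ((Finset.univ.val.map f).map fun t => X - C t).prod := by
    rw [hf]
    exact (prod_multiset_X_sub_C_of_monic_of_roots_card_eq (charpoly_monic A)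
      (splits_iff_card_roots.1 (IsAlgClosed.splits _))).symm
  rw [h0, Multiset.prod_X_sub_C_coeff _ (by simp), MvPolynomial.aeval_esymm_eq_multiset_esymm]
  simp only [Multiset.card_map, Finset.card_val, Finset.card_univ, Fintype.card_fin]
  rw [Nat.sub_sub_self hk]

/-- Newton's identities for the coefficients of the characteristic polynomial -/
theorem newton {m : ℕ} (A : Matrix (Fin m) (Fin m) ℂ) {k : ℕ}
    (hk : k + 1 ≤ m) : ((k : ℂ) + 1) * A.charpoly.coeff (m - (k + 1)) =
      - ∑ i ∈ Finset.range (k + 1), A.charpoly.coeff (m - (k - i)) * trace (A ^ (i + 1)) := by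
  obtain ⟨f, hf⟩ := exists_fam A
  have h := congrArg (MvPolynomial.aeval f)
    (MvPolynomial.mul_esymm_eq_sum (Fin m) ℂ (k + 1))
  simp only [map_mul, map_sum, map_pow, map_neg, map_one, map_natCast] at h
  rw [coeff_charpoly hf hk]
  have h2 : ∀ a ∈ (HasAntidiagonal.antidiagonal (k + 1)).filter (fun a => a.1 < k + 1),
      (-1 : ℂ) ^ a.1 * MvPolynomial.aeval f (MvPolynomial.esymm (Fin m) ℂ a.1) *
        MvPolynomial.aeval f (MvPolynomial.psum (Fin m) ℂ a.2) =
      A.charpoly.coeff (m - a.1) * trace (A ^ a.2) := by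
    intro a ha
    rw [Finset.mem_filter, HasAntidiagonal.mem_antidiagonal] at ha
    rw [coeff_charpoly hf (by omega), Pool.Agent.W715.VC.trace_pow A (by omega), ← hf,
      Multiset.map_map]
    congr 1
    simp only [MvPolynomial.psum, map_sum, map_pow, MvPolynomial.aeval_X]
    rfl
  rw [Finset.sum_congr rfl h2] at h
  have h3 : ∑ a ∈ (HasAntidiagonal.antidiagonal (k + 1)).filter (fun a => a.1 < k + 1),
      A.charpoly.coeff (m - a.1) * trace (A ^ a.2) =
      ∑ i ∈ Finset.range (k + 1), A.charpoly.coeff (m - (k - i)) * trace (A ^ (i + 1)) := by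
    refine Finset.sum_bij' (fun a _ => a.2 - 1) (fun i _ => (k - i, i + 1)) ?_ ?_ ?_ ?_ ?_
    · intro a ha
      rw [Finset.mem_filter, HasAntidiagonal.mem_antidiagonal] at ha
      rw [Finset.mem_range]
      omega
    · intro i hi
      rw [Finset.mem_range] at hi
      rw [Finset.mem_filter, HasAntidiagonal.mem_antidiagonal]
      constructor
      · simp only; omega
      · simp only; omega
    · intro a ha
      rw [Finset.mem_filter, HasAntidiagonal.mem_antidiagonal] at ha
      ext <;> simp only <;> omega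
    · intro i hi
      simp
    · intro a ha
      rw [Finset.mem_filter, HasAntidiagonal.mem_antidiagonal] at ha
      have e1 : k - (a.2 - 1) = a.1 := by omega
      have e2 : a.2 - 1 + 1 = a.2 := by omega
      rw [e1, e2]
  rw [h3] at h
  have h4 : ((-1 : ℂ) ^ (k + 1)) * (-1) ^ (k + 1) = 1 := by
    rw [← mul_pow]; simp
  have h5 : ((k : ℂ) + 1) * ((-1) ^ (k + 1) * MvPolynomial.aeval f
      (MvPolynomial.esymm (Fin m) ℂ (k + 1))) = (-1) ^ (k + 1) * (((k + 1 : ℕ) : ℂ) *
      MvPolynomial.aeval f (MvPolynomial.esymm (Fin m) ℂ (k + 1))) := by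
    push_cast; ring
  rw [h5, h, pow_succ _ (k + 1)]
  linear_combination (-(∑ i ∈ Finset.range (k + 1), A.charpoly.coeff (m - (k - i)) *
    trace (A ^ (i + 1)))) * h4

/-- the coefficients are small -/
theorem coeff_small {m : ℕ} (A : Matrix (Fin m) (Fin m) ℂ) {e : ℝ} (he1 : e ≤ 1)
    (h : ∀ j, 0 < j → j < m → ‖trace (A ^ j)‖ ≤ e) :
    ∀ k, k < m → ‖A.charpoly.coeff (m - k)‖ ≤ 1 ∧ (0 < k → ‖A.charpoly.coeff (m - k)‖ ≤ e) := by
  intro k
  induction k using Nat.strong_induction_on with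
  | _ k ih =>
    intro hk
    rcases Nat.eq_zero_or_pos k with h0 | h0
    · subst h0
      refine ⟨?_, fun h => absurd h (lt_irrefl _)⟩
      have h1 : A.charpoly.coeff m = 1 := by
        have h2 := (charpoly_monic A).coeff_natDegree
        rwa [charpoly_natDegree_eq_dim, Fintype.card_fin] at h2
      rw [Nat.sub_zero, h1, norm_one]
    · obtain ⟨k, rfl⟩ : ∃ k', k = k' + 1 := ⟨k - 1, by omega⟩
      have h1 := newton A (k := k) (by omega)
      have h2 : ‖((k : ℂ) + 1) * A.charpoly.coeff (m - (k + 1))‖ ≤ (k + 1) * e := by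
        rw [h1, norm_neg]
        refine (norm_sum_le _ _).trans ?_
        have h3 : ∀ i ∈ Finset.range (k + 1),
            ‖A.charpoly.coeff (m - (k - i)) * trace (A ^ (i + 1))‖ ≤ e := by
          intro i hi
          rw [Finset.mem_range] at hi
          rw [norm_mul]
          have h4 := (ih (k - i) (by omega) (by omega)).1
          have h5 := h (i + 1) (by omega) (by omega)
          calc _ ≤ 1 * e := mul_le_mul h4 h5 (norm_nonneg _) zero_le_one
            _ = e := one_mul e
        refine (Finset.sum_le_card_nsmul _ _ _ h3).trans (le_of_eq ?_)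
        rw [Finset.card_range, nsmul_eq_mul]
        push_cast
        ring
      have h6 : ‖((k : ℂ) + 1)‖ = (k : ℝ) + 1 := by
        have : ((k : ℂ) + 1) = (((k : ℝ) + 1 : ℝ) : ℂ) := by push_cast; ring
        rw [this, Complex.norm_real, Real.norm_of_nonneg (by positivity)]
      rw [norm_mul, h6] at h2
      have h7 : ‖A.charpoly.coeff (m - (k + 1))‖ ≤ e :=
        le_of_mul_le_mul_left h2 (by positivity)
      exact ⟨h7.trans he1, fun _ => h7⟩

theorem norm_unitary_le {m : ℕ} {A : Matrix (Fin m) (Fin m) ℂ} (hA : Aᴴ * A = 1) :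
    ‖A‖ ≤ m := by
  have h1 : A ∈ Matrix.unitaryGroup (Fin m) ℂ := by
    rw [Matrix.mem_unitaryGroup_iff']
    exact hA
  rw [Matrix.frobenius_norm_def]
  have h2 : (∑ i, ∑ j, ‖A i j‖ ^ (2 : ℝ)) ≤ (m : ℝ) ^ (2 : ℝ) := by
    have h3 : ∀ i ∈ (Finset.univ : Finset (Fin m)), ∑ j, ‖A i j‖ ^ (2 : ℝ) ≤ m := by
      intro i _
      have h4 : ∀ j ∈ (Finset.univ : Finset (Fin m)), ‖A i j‖ ^ (2 : ℝ) ≤ 1 := fun j _ =>
        Real.rpow_le_one (norm_nonneg _) (entry_norm_bound_of_unitary h1 i j) (by norm_num)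
      refine (Finset.sum_le_card_nsmul _ _ _ h4).trans (le_of_eq ?_)
      simp
    refine (Finset.sum_le_card_nsmul _ _ _ h3).trans (le_of_eq ?_)
    rw [Finset.card_univ, Fintype.card_fin, nsmul_eq_mul]
    rw [Real.rpow_two]
    ring
  calc _ ≤ ((m : ℝ) ^ (2 : ℝ)) ^ (1 / 2 : ℝ) :=
        Real.rpow_le_rpow (by positivity) h2 (by norm_num)
    _ = m := by
        rw [← Real.rpow_mul (Nat.cast_nonneg _)]
        norm_num

theorem newt (N : ℕ) [NeZero N] : ∃ C : ℝ, 0 < C ∧ ∀ P : Matrix (Fin N) (Fin N) ℂ, P.det = 1 →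
    Pᴴ * P = 1 → ∀ e : ℝ, 0 ≤ e → (∀ j, 0 < j → j < N → ‖trace (P ^ j)‖ ≤ e) →
    ‖P ^ N - ((-1) ^ (N + 1) : ℂ) • (1 : Matrix (Fin N) (Fin N) ℂ)‖ ≤ C * e := by
  have hN : (1 : ℝ) ≤ N := by exact_mod_cast NeZero.pos N
  refine ⟨2 * N * N, by positivity, fun P hdet hP e he h => ?_⟩
  have hpow : ∀ i : ℕ, (P ^ i)ᴴ * P ^ i = 1 := by
    intro i
    induction i with
    | zero => simp
    | succ i ih =>
      rw [pow_succ, conjTranspose_mul]
      calc Pᴴ * (P ^ i)ᴴ * (P ^ i * P) = Pᴴ * ((P ^ i)ᴴ * P ^ i) * P := by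
            simp only [mul_assoc]
        _ = 1 := by rw [ih, mul_one, hP]
  have hn : ∀ i : ℕ, ‖P ^ i‖ ≤ N := fun i => norm_unitary_le (hpow i)
  rcases le_or_gt e 1 with he1 | he1
  · have hc := coeff_small P he1 h
    have hch := aeval_self_charpoly P
    rw [aeval_eq_sum_range, charpoly_natDegree_eq_dim, Fintype.card_fin] at hch
    have hs : ∀ g : ℕ → Matrix (Fin N) (Fin N) ℂ, ∑ x ∈ Finset.range N, g x =
        ∑ i ∈ Finset.range (N - 1), g (i + 1) + g 0 := by
      intro g
      rw [← Finset.sum_range_succ', Nat.sub_add_cancel (NeZero.pos N : 1 ≤ N)]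
    rw [Finset.sum_range_succ, hs] at hch
    have h1 : P.charpoly.coeff N = 1 := by
      have h2 := (charpoly_monic P).coeff_natDegree
      rwa [charpoly_natDegree_eq_dim, Fintype.card_fin] at h2
    have h0 : P.charpoly.coeff 0 = (-1) ^ N := by
      have h2 := det_eq_sign_charpoly_coeff P
      rw [hdet, Fintype.card_fin] at h2
      have h3 : ((-1 : ℂ) ^ N) * (-1) ^ N = 1 := by rw [← mul_pow]; simp
      calc P.charpoly.coeff 0 = ((-1 : ℂ) ^ N * (-1) ^ N) * P.charpoly.coeff 0 := by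
            rw [h3, one_mul]
        _ = (-1) ^ N := by rw [mul_assoc, ← h2, mul_one]
    rw [h1, h0, one_smul, pow_zero] at hch
    have e1 : P ^ N - ((-1) ^ (N + 1) : ℂ) • (1 : Matrix (Fin N) (Fin N) ℂ) =
        -∑ i ∈ Finset.range (N - 1), P.charpoly.coeff (i + 1) • P ^ (i + 1) := by
      rw [pow_succ, mul_neg, mul_one, neg_smul, sub_neg_eq_add, eq_neg_iff_add_eq_zero]
      rw [← hch]
      abel
    rw [e1, norm_neg]
    refine (norm_sum_le _ _).trans ?_
    have h5 : ∀ i ∈ Finset.range (N - 1), ‖P.charpoly.coeff (i + 1) • P ^ (i + 1)‖ ≤ e * N := by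
      intro i hi
      rw [Finset.mem_range] at hi
      rw [norm_smul]
      have h6 := (hc (N - (i + 1)) (by omega)).2 (by omega)
      rw [Nat.sub_sub_self (by omega)] at h6
      exact mul_le_mul h6 (hn _) (norm_nonneg _) he
    refine (Finset.sum_le_card_nsmul _ _ _ h5).trans ?_
    rw [Finset.card_range, nsmul_eq_mul]
    have h7 : ((N - 1 : ℕ) : ℝ) ≤ 2 * N := by
      have : ((N - 1 : ℕ) : ℝ) ≤ N := by exact_mod_cast Nat.sub_le _ _
      linarith
    calc ((N - 1 : ℕ) : ℝ) * (e * N) ≤ 2 * N * (e * N) :=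
          mul_le_mul_of_nonneg_right h7 (by positivity)
      _ = 2 * N * N * e := by ring
  · have h1 : ‖((-1) ^ (N + 1) : ℂ) • (1 : Matrix (Fin N) (Fin N) ℂ)‖ ≤ N := by
      rw [norm_smul, norm_pow, norm_neg, norm_one, one_pow, one_mul]
      have := hn 0
      rwa [pow_zero] at this
    calc _ ≤ ‖P ^ N‖ + ‖((-1) ^ (N + 1) : ℂ) • (1 : Matrix (Fin N) (Fin N) ℂ)‖ :=
          norm_sub_le _ _
      _ ≤ N + N := add_le_add (hn N) h1
      _ ≤ 2 * N * N * e := by
          have a1 : (N : ℝ) * 1 ≤ N * N := mul_le_mul_of_nonneg_left hN (by positivity)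
          have a2 : (N : ℝ) * N * 1 ≤ N * N * e :=
            mul_le_mul_of_nonneg_left he1.le (by positivity)
          linarith

end Pool.Agent.Run7.h591.QW
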